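import Pool.Agent.H15.HLU.Targets

/-! Homogeneous latin squares, uniform version (MP_3713ea_co), row EVN: even orders. -/

set_option autoImplicit false

namespace Pool.Agent.H12.HLU

open Pool.Agent.H51.Homog Pool.Agent.H22.HSQ Pool.Agent.H15.HLS Pool.Agent.H15.HLU

/-- the crude bound -/
lemma bndX (X w Y : ℕ) (hX : 8 ≤ X) (hw : w ≤ X ^ 3) (hY : Y ≤ X * (X ^ 2 + 8 * X ^ 3)) :
    w * (16 * ((30 * w + 1) * (2 * Y) + 1) ^ 3 + 31) + (30 * w + 1) * Y + w ≤ X ^ 100 := by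
  have p1 : ∀ i : ℕ, 1 ≤ X ^ i := fun i => Nat.one_le_pow _ _ (by omega)
  have p8 : ∀ i : ℕ, 8 * X ^ i ≤ X ^ (i + 1) := fun i => by
    rw [pow_succ, Nat.mul_comm]
    exact Nat.mul_le_mul_left _ hX
  have pm : ∀ i j : ℕ, i ≤ j → X ^ i ≤ X ^ j := fun i j h => Nat.pow_le_pow_right (by omega) h
  have h1 : 30 * w + 1 ≤ X ^ 5 := by
    have a := p8 3
    have b := p8 4
    have c := p1 3
    simp only [Nat.reduceAdd] at a b
    omega
  have h2 : Y ≤ X ^ 6 := by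
    have e : X * (X ^ 2 + 8 * X ^ 3) = X ^ 3 + 8 * X ^ 4 := by ring
    rw [e] at hY
    have a := p8 4
    have b := p8 5
    have c := pm 3 5 (by norm_num)
    simp only [Nat.reduceAdd] at a b
    omega
  have h3 : (30 * w + 1) * (2 * Y) + 1 ≤ X ^ 13 := by
    have a : (30 * w + 1) * (2 * Y) ≤ X ^ 5 * X ^ 7 := by
      apply Nat.mul_le_mul h1
      have := p8 6
      simp only [Nat.reduceAdd] at this
      omega
    rw [← pow_add] at a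
    have b := p8 12
    have c := p1 12
    simp only [Nat.reduceAdd] at a b
    omega
  have h4 : ((30 * w + 1) * (2 * Y) + 1) ^ 3 ≤ X ^ 39 := by
    calc ((30 * w + 1) * (2 * Y) + 1) ^ 3 ≤ (X ^ 13) ^ 3 := Nat.pow_le_pow_left h3 3
      _ = X ^ 39 := by rw [← pow_mul]
  have h5 : 16 * ((30 * w + 1) * (2 * Y) + 1) ^ 3 + 31 ≤ X ^ 41 := by
    have a := p8 39
    have b := p8 40
    have c := p1 39
    simp only [Nat.reduceAdd] at a b
    omega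
  have h6 : w * (16 * ((30 * w + 1) * (2 * Y) + 1) ^ 3 + 31) ≤ X ^ 44 := by
    calc w * (16 * ((30 * w + 1) * (2 * Y) + 1) ^ 3 + 31) ≤ X ^ 3 * X ^ 41 := Nat.mul_le_mul hw h5
      _ = X ^ 44 := by rw [← pow_add]
  have h7 : (30 * w + 1) * Y ≤ X ^ 44 := by
    calc (30 * w + 1) * Y ≤ X ^ 5 * X ^ 6 := Nat.mul_le_mul h1 h2
      _ = X ^ 11 := by rw [← pow_add]
      _ ≤ X ^ 44 := pm 11 44 (by norm_num)
  have h8 : w ≤ X ^ 44 := hw.trans (pm 3 44 (by norm_num))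
  have h9 := p8 44
  have h10 := pm 45 100 (by norm_num)
  simp only [Nat.reduceAdd] at h9
  omega

theorem pf_EVN (hFIN : T_FIN) (hOPR : T_OPR) (hCRT : T_CRT) : T_EVN := by
  intro h X σ₁ σ₂ σ₄ τ h1 h2 h4 hτ o1 o2 o4 hco x1 x2 x4 n hn hXn
  have p1 : 1 ≤ σ₁ := o1.pos
  have p2 : 1 ≤ σ₂ := o2.pos
  have p4 : 1 ≤ σ₄ := o4.pos
  have hτpos : ∀ a, 1 ≤ a → a ≤ 3 → 1 ≤ τ a := by
    intro a ha1 ha3
    by_contra hneg
    have h0 : τ a = 0 := by omega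
    have hc := (hτ a ha1 ha3).2.2
    rw [h0, Nat.coprime_zero_left] at hc
    have : 1 ≤ σ₄ * σ₁ * σ₂ := Nat.mul_pos (Nat.mul_pos p4 p1) p2
    omega
  have hX : 8 ≤ X := by
    have a := (hτ 3 (by norm_num) le_rfl).2.1
    have b := hτpos 3 (by norm_num) le_rfl
    norm_num at a
    omega
  -- the modulus
  set w := 4 * σ₄ * (σ₁ * σ₂) with hw
  have hwo : IsOrder h w := hOPR h (4 * σ₄) (σ₁ * σ₂) h4 (o1.mul o2)
  have hwpos : 0 < w := by rw [hw]; positivity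
  have d1 : 2 * (2 * σ₁) ∣ w := ⟨σ₄ * σ₂, by rw [hw]; ring⟩
  have d2 : 2 * (2 * σ₂) ∣ w := ⟨σ₄ * σ₁, by rw [hw]; ring⟩
  have hwX : w ≤ X ^ 3 := by
    calc w ≤ X * (X * X) := Nat.mul_le_mul x4 (Nat.mul_le_mul (by omega) (by omega))
      _ = X ^ 3 := by ring
  have h30 : 8 * (15 * (σ₄ * σ₁ * σ₂)) = 30 * w := by rw [hw]; ring
  have hO : Odd (15 * (σ₄ * σ₁ * σ₂)) := by
    apply Odd.mul (by decide)
    exact (o4.mul o1).mul o2
  have hρ2 : 2 ∣ n + 29 * w := by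
    have : 2 ∣ w := ⟨2 * σ₄ * (σ₁ * σ₂), by rw [hw]; ring⟩
    omega
  -- the type of the residue
  obtain ⟨a, ha1, ha3, c1, c2, c3⟩ : ∃ a : ℕ, 1 ≤ a ∧ a ≤ 3 ∧
      (a = 1 → (n + 29 * w) % 4 = 2) ∧ (a = 2 → (n + 29 * w) % 8 = 4) ∧
      (a = 3 → (n + 29 * w) % 8 = 0) := by
    rcases (by omega : (n + 29 * w) % 4 = 2 ∨ (n + 29 * w) % 8 = 4 ∨ (n + 29 * w) % 8 = 0) with
      e | e | e
    · exact ⟨1, le_rfl, by norm_num, fun _ => e, fun e' => by omega, fun e' => by omega⟩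
    · exact ⟨2, by norm_num, by norm_num, fun e' => by omega, fun _ => e, fun e' => by omega⟩
    · exact ⟨3, by norm_num, le_rfl, fun e' => by omega, fun e' => by omega, fun _ => e⟩
  obtain ⟨hta, htX, htc⟩ := hτ a ha1 ha3
  have htp := hτpos a ha1 ha3
  obtain ⟨N, hN, hN1, hN2, hN3⟩ := hCRT (15 * (σ₄ * σ₁ * σ₂)) (τ a) a (n + 29 * w)
    (2 * σ₁ * (2 * σ₂)) hO htc hρ2 ha1 ha3 c1 c2 c3
  rw [h30] at hN2 hN3
  have hpos : 1 ≤ 2 ^ a * τ a := Nat.mul_pos (by positivity) htp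
  have hgcd : Nat.gcd (2 * σ₁) (2 * σ₂) ∣ 2 ^ a * τ a * N := by
    rw [Nat.gcd_mul_left, Nat.Coprime.gcd_eq_one hco, mul_one]
    have e : 2 ^ a = 2 * 2 ^ (a - 1) := by
      rw [← pow_succ']
      congr 1
      omega
    exact ⟨2 ^ (a - 1) * τ a * N, by rw [e]; ring⟩
  have hlow : 2 * σ₁ * (2 * σ₂) ≤ 2 ^ a * τ a * N :=
    hN1.trans (Nat.le_mul_of_pos_left N hpos)
  have h30w : 30 * w ≤ 8 * X ^ 3 := by
    have e : 4 * w ≤ X ^ 3 := by
      calc 4 * w = 4 * σ₄ * (2 * σ₁ * (2 * σ₂)) := by rw [hw]; ring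
        _ ≤ X * (X * X) := Nat.mul_le_mul x4 (Nat.mul_le_mul x1 x2)
        _ = X ^ 3 := by ring
    omega
  have hup : 2 ^ a * τ a * N ≤ X * (X ^ 2 + 8 * X ^ 3) := by
    apply Nat.mul_le_mul htX
    refine hN2.trans (Nat.add_le_add ?_ h30w)
    calc 2 * σ₁ * (2 * σ₂) ≤ X * X := Nat.mul_le_mul x1 x2
      _ = X ^ 2 := by ring
  have hmod : 2 ^ a * τ a * N + w ≡ n [MOD 30 * w] := by
    have e1 := hN3.add_right w
    have e2 : n + 29 * w + w ≡ n [MOD 30 * w] := by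
      have : n + 29 * w + w = n + 30 * w := by ring
      rw [this]
      unfold Nat.ModEq
      exact Nat.add_mod_right n (30 * w)
    exact e1.trans e2
  exact hFIN h (2 * σ₁) (2 * σ₂) w (2 ^ a * τ a * N) (X * (X ^ 2 + 8 * X ^ 3)) n h1 h2 hwo
    (by omega) (by omega) hwpos d1 d2 (hOPR h _ N hta hN) hgcd hlow hup hmod
    ((bndX X w _ hX hwX le_rfl).trans hXn)

end Pool.Agent.H12.HLU
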